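import Mathlib

set_option autoImplicit false

/-! Hitting a time window: `P_x (t ≤ τ(y) ≤ t + n) ≤ C n / t` fails for every constant `C`. -/

namespace Pool.Agent.Results.MP_eadfc1_pr.WindowFails

open Finset

/-- `P` is a transition matrix on the finite set `S`. -/
def IsTransitionMatrix {S : Type} [Fintype S] (P : S → S → ℝ) : Prop :=
  (∀ x y, 0 ≤ P x y) ∧ ∀ x, ∑ y, P x y = 1

open Classical in
/-- `P_x (τ(y) = k)`: the sum, over all trajectories `ω 0, …, ω k` with `ω 0 = x`, `ω k = y` and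
`ω i ≠ y` for `i < k`, of the probability `P (ω 0) (ω 1) ⋯ P (ω (k-1)) (ω k)`. -/
noncomputable def hitProb {S : Type} [Fintype S] (P : S → S → ℝ) (x y : S) (k : ℕ) : ℝ :=
  ∑ ω : Fin (k + 1) → S,
    if ω 0 = x ∧ ω (Fin.last k) = y ∧ ∀ i : Fin k, ω i.castSucc ≠ y then
      ∏ i : Fin k, P (ω i.castSucc) (ω i.succ)
    else 0

/-- `P_x (a ≤ τ(y) ≤ b)`. -/
noncomputable def windowProb {S : Type} [Fintype S] (P : S → S → ℝ) (x y : S) (a b : ℕ) : ℝ :=
  ∑ k ∈ Finset.Icc a b, hitProb P x y k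

section rec

variable {S : Type} [Fintype S] (P : S → S → ℝ)

lemma hitProb_zero_self (y : S) : hitProb P y y 0 = 1 := by
  classical
  unfold hitProb
  rw [Finset.sum_eq_single (fun _ => y)]
  · simp
  · intro ω _ hω
    rw [if_neg]
    rintro ⟨h0, -, -⟩
    apply hω
    funext i
    have : i = 0 := Fin.ext (by have := i.isLt; simp only [Fin.val_zero]; omega)
    rw [this, h0]
  · intro h; exact absurd (Finset.mem_univ _) h

lemma hitProb_zero_ne (x y : S) (h : x ≠ y) : hitProb P x y 0 = 0 := by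
  classical
  unfold hitProb
  refine Finset.sum_eq_zero fun ω _ => ?_
  rw [if_neg]
  rintro ⟨h0, h1, -⟩
  exact h (h0 ▸ h1)

lemma hitProb_succ_self (y : S) (k : ℕ) : hitProb P y y (k + 1) = 0 := by
  classical
  unfold hitProb
  refine Finset.sum_eq_zero fun ω _ => ?_
  rw [if_neg]
  rintro ⟨h0, -, h2⟩
  exact h2 0 (by simpa using h0)

lemma hitProb_succ_ne (x y : S) (h : x ≠ y) (k : ℕ) :
    hitProb P x y (k + 1) = ∑ z, P x z * hitProb P z y k := by
  classical
  unfold hitProb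
  rw [← (Fin.consEquiv (fun _ : Fin (k + 2) => S)).sum_comp, Fintype.sum_prod_type]
  rw [Finset.sum_eq_single x]
  · simp only [Finset.mul_sum]
    rw [Finset.sum_comm]
    refine Finset.sum_congr rfl fun ω _ => ?_
    rw [Finset.sum_eq_single (ω 0)]
    · have e : ((Fin.consEquiv (fun _ : Fin (k + 2) => S)) (x, ω)) = Fin.cons x ω := rfl
      rw [e]
      by_cases hc : ω (Fin.last k) = y ∧ ∀ i : Fin k, ω i.castSucc ≠ y
      · rw [if_pos, if_pos ⟨rfl, hc.1, hc.2⟩, Fin.prod_univ_succ]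
        · congr 1
        · refine ⟨rfl, ?_, ?_⟩
          · rw [← Fin.succ_last, Fin.cons_succ]; exact hc.1
          · intro i
            refine Fin.cases ?_ (fun j => ?_) i
            · simpa using h
            · rw [← Fin.succ_castSucc, Fin.cons_succ]; exact hc.2 j
      · rw [if_neg, if_neg, mul_zero]
        · rintro ⟨-, h1, h2⟩; exact hc ⟨h1, h2⟩
        · rintro ⟨-, h1, h2⟩
          refine hc ⟨?_, fun j => ?_⟩
          · rw [← Fin.succ_last, Fin.cons_succ] at h1; exact h1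
          · have := h2 j.succ
            rw [← Fin.succ_castSucc, Fin.cons_succ] at this; exact this
    · intro z _ hz
      rw [if_neg (fun hh => hz hh.1.symm), mul_zero]
    · intro hh; exact absurd (Finset.mem_univ _) hh
  · intro z _ hz
    refine Finset.sum_eq_zero fun ω _ => ?_
    rw [if_neg]
    rintro ⟨h0, -, -⟩
    exact hz h0
  · intro hh; exact absurd (Finset.mem_univ _) hh

end rec

/-! ### the chain: advance with probability `p`, stay with probability `1 - p` -/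

noncomputable def adv (n : ℕ) (p : ℝ) (i j : Fin (n + 1)) : ℝ :=
  if (i : ℕ) = n then (if (j : ℕ) = n then 1 else 0)
  else (if (j : ℕ) = i + 1 then p else 0) + (if (j : ℕ) = i then 1 - p else 0)

lemma sum_adv (n : ℕ) (p : ℝ) (i : Fin (n + 1)) (hi : (i : ℕ) < n) (g : Fin (n + 1) → ℝ) :
    ∑ j, adv n p i j * g j = p * g ⟨i + 1, by omega⟩ + (1 - p) * g i := by
  have h0 : ¬ ((i : ℕ) = n) := by omega
  have h1 : ∀ j, adv n p i j * g j =
      (if j = ⟨i + 1, by omega⟩ then p * g j else 0) + (if j = i then (1 - p) * g j else 0) := by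
    intro j
    unfold adv
    rw [if_neg h0, add_mul]
    congr 1
    · by_cases h : (j : ℕ) = i + 1
      · rw [if_pos h, if_pos (Fin.ext h)]
      · rw [if_neg h, if_neg (fun hh => h (congrArg Fin.val hh)), zero_mul]
    · by_cases h : (j : ℕ) = i
      · rw [if_pos h, if_pos (Fin.ext h)]
      · rw [if_neg h, if_neg (fun hh => h (congrArg Fin.val hh)), zero_mul]
  rw [Finset.sum_congr rfl fun j _ => h1 j, Finset.sum_add_distrib, Finset.sum_ite_eq',
    Finset.sum_ite_eq']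
  simp

lemma adv_trans (n : ℕ) (p : ℝ) (h0 : 0 ≤ p) (h1 : p ≤ 1) : IsTransitionMatrix (adv n p) := by
  refine ⟨fun i j => ?_, fun i => ?_⟩
  · unfold adv
    split_ifs <;> linarith
  · by_cases hi : (i : ℕ) < n
    · have := sum_adv n p i hi (fun _ => 1)
      simp only [mul_one] at this
      rw [this]; ring
    · have hi' : (i : ℕ) = n := by omega
      unfold adv
      simp only [hi', if_true]
      have : ∀ j : Fin (n + 1), (if (j : ℕ) = n then (1 : ℝ) else 0) = if j = i then 1 else 0 := by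
        intro j
        by_cases h : (j : ℕ) = n
        · rw [if_pos h, if_pos (Fin.ext (by omega))]
        · rw [if_neg h, if_neg (fun hh => h (by rw [hh]; exact hi'))]
      rw [Finset.sum_congr rfl fun j _ => this j, Finset.sum_ite_eq']
      simp

/-- `P_i (τ(y) ≤ s)` -/
noncomputable def cum (n : ℕ) (p : ℝ) (i : Fin (n + 1)) (s : ℕ) : ℝ :=
  ∑ k ∈ Finset.range (s + 1), hitProb (adv n p) i (Fin.last n) k

lemma cum_last (n : ℕ) (p : ℝ) (s : ℕ) : cum n p (Fin.last n) s = 1 := by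
  unfold cum
  rw [Finset.sum_range_succ', hitProb_zero_self]
  simp [hitProb_succ_self]

lemma cum_zero (n : ℕ) (p : ℝ) (i : Fin (n + 1)) (hi : (i : ℕ) < n) : cum n p i 0 = 0 := by
  unfold cum
  rw [Finset.sum_range_one, hitProb_zero_ne]
  intro h; rw [h] at hi; simp at hi

lemma cum_succ (n : ℕ) (p : ℝ) (i : Fin (n + 1)) (hi : (i : ℕ) < n) (s : ℕ) :
    cum n p i (s + 1) = p * cum n p ⟨i + 1, by omega⟩ s + (1 - p) * cum n p i s := by
  have hne : i ≠ Fin.last n := by
    intro h; rw [h] at hi; simp at hi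
  unfold cum
  rw [Finset.sum_range_succ', hitProb_zero_ne _ _ _ hne, add_zero, Finset.mul_sum, Finset.mul_sum,
    ← Finset.sum_add_distrib]
  refine Finset.sum_congr rfl fun k _ => ?_
  rw [hitProb_succ_ne _ _ _ hne, sum_adv n p i hi]

/-- Chebyshev upper bound for `P_i (τ(y) ≤ s)` -/
lemma cum_le (n : ℕ) (p δ : ℝ) (h0 : 0 ≤ p) (h1 : p ≤ 1) (hδ : 0 < δ) (s : ℕ) :
    ∀ i : Fin (n + 1), δ ^ 2 * cum n p i s ≤
      ((s : ℝ) * p - ((n : ℝ) - (i : ℕ)) + δ) ^ 2 + s * (p * (1 - p)) := by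
  have hpp : 0 ≤ p * (1 - p) := mul_nonneg h0 (by linarith)
  induction s with
  | zero =>
    intro i
    by_cases hi : (i : ℕ) < n
    · rw [cum_zero n p i hi]
      simp only [Nat.cast_zero, zero_mul, mul_zero]
      positivity
    · have hi' : i = Fin.last n := by ext; simp; omega
      rw [hi', cum_last]
      simp
  | succ s ih =>
    intro i
    by_cases hi : (i : ℕ) < n
    · rw [cum_succ n p i hi]
      have e1 := ih i
      have e2 := ih ⟨i + 1, by omega⟩
      simp only at e2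
      push_cast at e2 ⊢
      have e3 := mul_le_mul_of_nonneg_left e2 h0
      have e4 := mul_le_mul_of_nonneg_left e1 (sub_nonneg.2 h1)
      refine le_trans (le_of_eq ?_) ((add_le_add e3 e4).trans (le_of_eq ?_)) <;> ring
    · have hi' : i = Fin.last n := by ext; simp; omega
      rw [hi', cum_last]
      have hs : (0 : ℝ) ≤ ((s + 1 : ℕ) : ℝ) := by positivity
      have h2 : 0 ≤ ((s + 1 : ℕ) : ℝ) * p := mul_nonneg hs h0
      have h3 : 0 ≤ ((s + 1 : ℕ) : ℝ) * (p * (1 - p)) := mul_nonneg hs hpp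
      simp only [Fin.val_last, sub_self, sub_zero, mul_one]
      nlinarith

/-- Chebyshev upper bound for `P_i (τ(y) > s)` -/
lemma one_sub_cum_le (n : ℕ) (p δ : ℝ) (h0 : 0 ≤ p) (h1 : p ≤ 1) (hδ : 0 < δ) (s : ℕ) :
    ∀ i : Fin (n + 1), δ ^ 2 * (1 - cum n p i s) ≤
      ((s : ℝ) * p - ((n : ℝ) - (i : ℕ)) - δ) ^ 2 + s * (p * (1 - p)) := by
  have hpp : 0 ≤ p * (1 - p) := mul_nonneg h0 (by linarith)
  induction s with
  | zero =>
    intro i
    by_cases hi : (i : ℕ) < n
    · rw [cum_zero n p i hi]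
      have : (0 : ℝ) ≤ (n : ℝ) - (i : ℕ) := by
        have : ((i : ℕ) : ℝ) ≤ n := by exact_mod_cast hi.le
        linarith
      simp only [Nat.cast_zero, zero_mul, sub_zero, mul_one, add_zero, zero_sub]
      nlinarith
    · have hi' : i = Fin.last n := by ext; simp; omega
      rw [hi', cum_last]
      simp
      positivity
  | succ s ih =>
    intro i
    by_cases hi : (i : ℕ) < n
    · rw [cum_succ n p i hi]
      have e1 := ih i
      have e2 := ih ⟨i + 1, by omega⟩
      simp only at e2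
      push_cast at e2 ⊢
      have e3 := mul_le_mul_of_nonneg_left e2 h0
      have e4 := mul_le_mul_of_nonneg_left e1 (sub_nonneg.2 h1)
      refine le_trans (le_of_eq ?_) ((add_le_add e3 e4).trans (le_of_eq ?_)) <;> ring
    · have hi' : i = Fin.last n := by ext; simp; omega
      rw [hi', cum_last]
      have hs : (0 : ℝ) ≤ ((s + 1 : ℕ) : ℝ) := by positivity
      have h3 : 0 ≤ ((s + 1 : ℕ) : ℝ) * (p * (1 - p)) := mul_nonneg hs hpp
      simp only [sub_self, mul_zero]
      positivity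

lemma final_ineq (m C : ℝ) (hm3 : 3 < m) (hmC : 16 * C < m) :
    C * (16 * m ^ 2) < 1 / 4 * (16 * m ^ 3 - m - 8 * m ^ 2 + 1) := by
  have h5 : (16 * C) * m ^ 2 < m * m ^ 2 := mul_lt_mul_of_pos_right hmC (by positivity)
  have h7 : m ^ 3 = m * m ^ 2 := by ring
  have h8 : 3 * m ^ 2 ≤ m * m ^ 2 := mul_le_mul_of_nonneg_right hm3.le (by positivity)
  have h9 : 3 * m ≤ m ^ 2 := by nlinarith
  rw [h7]
  linarith

/-- For every constant `C` there are `n ≥ 1`, a Markov chain on `n` states, states `x`, `y` and an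
integer `t > n` with `P_x (t ≤ τ(y) ≤ t + n) > C n / t`. -/
theorem result : ∀ C : ℝ, ∃ (n : ℕ) (P : Fin n → Fin n → ℝ) (x y : Fin n) (t : ℕ),
    1 ≤ n ∧ IsTransitionMatrix P ∧ n < t ∧ C * (n / t) < windowProb P x y t (t + n) := by
  intro C
  obtain ⟨m, hm⟩ := exists_nat_gt (max (16 * C) 3)
  have hmC : 16 * C < m := lt_of_le_of_lt (le_max_left _ _) hm
  have hm3 : (3 : ℝ) < m := lt_of_le_of_lt (le_max_right _ _) hm
  have hm3' : 3 < m := by exact_mod_cast hm3
  obtain ⟨d, hd⟩ : ∃ d : ℕ, d + 1 = 16 * m ^ 2 := ⟨16 * m ^ 2 - 1, by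
    have : 0 < m ^ 2 := by positivity
    omega⟩
  have hdm : 8 * m ^ 2 ≤ d * m := by nlinarith
  obtain ⟨s, hs⟩ : ∃ s : ℕ, s + 8 * m ^ 2 = d * m := ⟨d * m - 8 * m ^ 2, by omega⟩
  have hm0 : (0 : ℝ) < m := by linarith
  have hdR : (d : ℝ) + 1 = 16 * (m : ℝ) ^ 2 := by exact_mod_cast hd
  have hsR : (s : ℝ) + 8 * (m : ℝ) ^ 2 = d * m := by exact_mod_cast hs
  have hp0 : (0 : ℝ) ≤ 1 / m := by positivity
  have hp1 : 1 / (m : ℝ) ≤ 1 := by rw [div_le_one hm0]; linarith
  refine ⟨d + 1, adv d (1 / m), 0, Fin.last d, s + 1, by omega, adv_trans _ _ hp0 hp1, ?_, ?_⟩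
  · -- `n < t`
    have : 24 * m ^ 2 < d * m := by
      have : 16 * m ^ 2 * m = d * m + m := by rw [← hd]; ring
      nlinarith
    omega
  · have hw : windowProb (adv d (1 / m)) 0 (Fin.last d) (s + 1) (s + 1 + (d + 1)) =
        cum d (1 / m) 0 (s + 1 + (d + 1)) - cum d (1 / m) 0 s := by
      unfold windowProb cum
      rw [← Finset.sum_sdiff (s₁ := Finset.range (s + 1))
        (s₂ := Finset.range (s + 1 + (d + 1) + 1)) (by
          intro a ha; simp only [Finset.mem_range] at ha ⊢; omega), add_sub_cancel_right]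
      refine Finset.sum_congr ?_ fun _ _ => rfl
      ext a
      simp only [Finset.mem_Icc, Finset.mem_sdiff, Finset.mem_range]
      omega
    rw [hw]
    have hδ : (0 : ℝ) < 8 * m := by positivity
    have hA := cum_le d (1 / m) (8 * m) hp0 hp1 hδ s 0
    have hB := one_sub_cum_le d (1 / m) (8 * m) hp0 hp1 hδ (s + 1 + (d + 1)) 0
    have hsp : (s : ℝ) * (1 / m) = d - 8 * m := by
      have : (s : ℝ) = d * m - 8 * (m : ℝ) ^ 2 := by linarith
      rw [this]; field_simp
    have hsp2 : ((s + 1 + (d + 1) : ℕ) : ℝ) * (1 / m) = d + 8 * m + 1 / m := by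
      have : ((s + 1 + (d + 1) : ℕ) : ℝ) = d * m + 8 * (m : ℝ) ^ 2 + 1 := by
        push_cast
        linarith
      rw [this]; field_simp
    rw [← mul_assoc, hsp] at hA
    rw [← mul_assoc, hsp2] at hB
    simp only [Fin.val_zero, Nat.cast_zero, sub_zero] at hA hB
    have hA1 : ((d : ℝ) - 8 * m - d + 8 * m) ^ 2 = 0 := by ring
    have hB1 : ((d : ℝ) + 8 * m + 1 / m - d - 8 * m) ^ 2 = (1 / m) ^ 2 := by ring
    rw [hA1] at hA
    rw [hB1] at hB
    have hd16 : (d : ℝ) ≤ 16 * (m : ℝ) ^ 2 := by linarith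
    -- `P (τ ≤ s) ≤ 1/4`
    have hA2 : cum d (1 / m) 0 s ≤ 1 / 4 := by
      have h1 : ((d : ℝ) - 8 * m) * (1 - 1 / m) ≤ 16 * (m : ℝ) ^ 2 := by
        have hd8 : (0 : ℝ) ≤ (d : ℝ) - 8 * m := by nlinarith
        have : ((d : ℝ) - 8 * m) * (1 - 1 / m) ≤ ((d : ℝ) - 8 * m) * 1 :=
          mul_le_mul_of_nonneg_left (by linarith) hd8
        linarith
      nlinarith
    have hB2 : 1 - cum d (1 / m) 0 (s + 1 + (d + 1)) ≤ 1 / 2 := by
      have h1 : ((d : ℝ) + 8 * m + 1 / m) * (1 - 1 / m) ≤ (d : ℝ) + 8 * m + 1 / m := by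
        have hd8 : (0 : ℝ) ≤ (d : ℝ) + 8 * m + 1 / m := by positivity
        have : ((d : ℝ) + 8 * m + 1 / m) * (1 - 1 / m) ≤ ((d : ℝ) + 8 * m + 1 / m) * 1 :=
          mul_le_mul_of_nonneg_left (by linarith) hd8
        linarith
      have h2 : (1 / (m : ℝ)) ^ 2 ≤ 1 := by
        rw [sq]; nlinarith
      nlinarith
    have hwin : 1 / 4 ≤ cum d (1 / m) 0 (s + 1 + (d + 1)) - cum d (1 / m) 0 s := by linarith
    refine lt_of_lt_of_le ?_ hwin
    have ht : (0 : ℝ) < ((s + 1 : ℕ) : ℝ) := by positivity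
    rw [← mul_div_assoc, div_lt_iff₀ ht]
    push_cast
    have hs' : (s : ℝ) = 16 * (m : ℝ) ^ 3 - m - 8 * (m : ℝ) ^ 2 := by
      have : (s : ℝ) = d * m - 8 * (m : ℝ) ^ 2 := by linarith
      rw [this]
      have : (d : ℝ) = 16 * (m : ℝ) ^ 2 - 1 := by linarith
      rw [this]; ring
    rw [hdR, hs']
    exact final_ineq m C hm3 hmC

end Pool.Agent.Results.MP_eadfc1_pr.WindowFails
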